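import Pool.Agent.Helper56_MG.Stmts2
import Pool.Agent.Helper56_MG.Base1

/-!
# EE and COMP: complements of covers as closed sets, compactness
-/

open Set

namespace Pool.Agent.MG.H8

open Pool.Agent.Men (iv iv2)

/-- The numbers of the intervals which contain the images of all the translated branches. -/
def cin (t : Node) (F : Finset ℕ) : Set ℕ := {a | ∀ x, On t x → eR (chg x F) ∈ iv a}

theorem cin_mono {s t : Node} (h : s <+: t) (F : Finset ℕ) : cin s F ⊆ cin t F :=
  fun _ ha x hx => ha x (hx.of_prefix h)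

theorem on_pre (x : R) (m : ℕ) : On (pre x m) x := by
  unfold On
  rw [length_pre]

theorem pre_chg {x x' : R} {m : ℕ} (F : Finset ℕ) (h : pre x' m = pre x m) :
    pre (chg x' F) m = pre (chg x F) m := by
  rw [pre_eq_pre_iff] at h ⊢
  intro i hi
  unfold chg
  rw [h i hi]

theorem mem_cin_of_mem (hEr : ErStmt) {x : R} {F : Finset ℕ} {a : ℕ} (h : eR (chg x F) ∈ iv a) :
    ∃ m, ∀ m' ≥ m, a ∈ cin (pre x m') F := by
  obtain ⟨m, hm⟩ := hEr.2.2.1 _ _ h
  refine ⟨m, fun m' hm' x' hx' => hm _ (pre_chg F ?_)⟩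
  have h1 : On (pre x m) x' := hx'.of_prefix (pre_isPrefix x hm')
  unfold On at h1
  rwa [length_pre] at h1

theorem eeStmt (hEr : ErStmt) : EeStmt := by
  refine ⟨fun c n F => {t | ∀ k ≤ t.length, c (Nat.pair n k) ∉ cin t F}, ?_, ?_⟩
  · intro n F
    rw [measurable_node_iff]
    intro t
    have h : {c : ℕ → ℕ | t ∈ {t : Node | ∀ k ≤ t.length, c (Nat.pair n k) ∉ cin t F}} =
        ⋂ k : ℕ, ⋂ _ : k ≤ t.length, {c | c (Nat.pair n k) ∈ (cin t F)ᶜ} := by
      ext c
      simp
    rw [h]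
    exact MeasurableSet.iInter fun k => MeasurableSet.iInter fun _ =>
      (measurable_pi_apply (Nat.pair n k)) (MeasurableSet.of_discrete)
  · intro c n F x
    constructor
    · intro hx k hk
      obtain ⟨m, hm⟩ := mem_cin_of_mem hEr hk
      exact hx (max m k) k (by simp) (hm _ (le_max_left _ _))
    · intro hx m k _ hk
      exact hx k (hk x (on_pre x m))

/-- The compactness property. -/
def Phi (K : Set Node) (c : ℕ → ℕ) (n N : ℕ) : Prop :=
  n ≤ N ∧ ∀ t : Node, t.length = N → (∀ m, m ≤ N → t.take m ∈ K) →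
    ∀ F ∈ (Finset.range n).powerset, ∃ k, k ≤ N ∧ c (Nat.pair n k) ∈ cin t F

theorem measurableSet_Phi (n N : ℕ) :
    MeasurableSet {z : Set Node × (ℕ → ℕ) | Phi z.1 z.2 n N} := by
  have h : {z : Set Node × (ℕ → ℕ) | Phi z.1 z.2 n N} = {z | n ≤ N} ∩
      ⋂ t : Node, ⋂ _ : t.length = N, ((⋂ m : ℕ, ⋂ _ : m ≤ N, {z | t.take m ∈ z.1})ᶜ ∪
        ⋂ F : Finset ℕ, ⋂ _ : F ∈ (Finset.range n).powerset, ⋃ k : ℕ, ⋃ _ : k ≤ N,
          {z | z.2 (Nat.pair n k) ∈ cin t F}) := by
    ext z
    simp only [Phi, Set.mem_ofPred_eq, Set.mem_inter_iff, Set.mem_iInter, Set.mem_union,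
      Set.mem_compl_iff, Set.mem_iUnion, exists_prop]
    refine and_congr Iff.rfl (forall_congr' fun t => forall_congr' fun _ => ?_)
    exact imp_iff_not_or
  rw [h]
  refine (MeasurableSet.const _).inter (MeasurableSet.iInter fun t => MeasurableSet.iInter fun _ =>
    MeasurableSet.union (MeasurableSet.compl (MeasurableSet.iInter fun m =>
      MeasurableSet.iInter fun _ => measurable_fst (measurableSet_mem_node _)))
      (MeasurableSet.iInter fun F => MeasurableSet.iInter fun _ => MeasurableSet.iUnion fun k =>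
        MeasurableSet.iUnion fun _ => ?_))
  exact ((measurable_pi_apply (Nat.pair n k)).comp measurable_snd) (MeasurableSet.of_discrete)

theorem exists_Phi (hEr : ErStmt) (K : Set Node) (c : ℕ → ℕ)
    (hK : ∀ n F, ∀ x ∈ bS K, ∃ k, eR (chg x F) ∈ iv (c (Nat.pair n k))) (n : ℕ) :
    ∃ N, Phi K c n N := by
  classical
  by_contra hcon
  push Not at hcon
  let B : Finset ℕ → Set Node := fun F =>
    {t | (∀ m, m ≤ t.length → t.take m ∈ K) ∧ ∀ k, k ≤ t.length → c (Nat.pair n k) ∉ cin t F}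
  have hBd : ∀ F s t, s <+: t → t ∈ B F → s ∈ B F := by
    rintro F s t hst ⟨h1, h2⟩
    have hl := hst.length_le
    refine ⟨fun m hm => ?_, fun k hk hc => h2 k (hk.trans hl) (cin_mono hst F hc)⟩
    have h3 := h1 m (hm.trans hl)
    obtain ⟨u, rfl⟩ := hst
    rwa [List.take_append_of_le_length hm] at h3
  have hB : ∀ N, ∃ t ∈ {t | ∃ F ∈ (Finset.range n).powerset, t ∈ B F}, t.length = N := by
    intro N
    have h1 := hcon (max n N)
    unfold Phi at h1
    push Not at h1
    obtain ⟨t, ht1, ht2, F, hF, ht3⟩ := h1 (le_max_left _ _)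
    have ht : t ∈ B F := ⟨fun m hm => ht2 m (by rwa [ht1] at hm), fun k hk => ht3 k (by
      rwa [ht1] at hk)⟩
    refine ⟨t.take N, ⟨F, hF, hBd F _ _ (List.take_prefix _ _) ht⟩, ?_⟩
    rw [List.length_take, ht1]
    exact min_eq_left (le_max_right _ _)
  obtain ⟨x, hx⟩ := exists_branch_of_infinite {t | ∃ F ∈ (Finset.range n).powerset, t ∈ B F}
    (by
      rintro s a ⟨F, hF, h⟩
      exact ⟨F, hF, hBd F _ _ (List.prefix_append _ _) h⟩) hB
  have hxK : x ∈ bS K := by
    intro m
    obtain ⟨F, _, h1, _⟩ := hx m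
    have h2 := h1 m (by rw [length_pre])
    rwa [take_pre x le_rfl] at h2
  have hm : ∀ F : Finset ℕ, ∃ m, pre x m ∉ B F := by
    intro F
    obtain ⟨k, hk⟩ := hK n F x hxK
    obtain ⟨m, hm⟩ := mem_cin_of_mem hEr hk
    refine ⟨max m k, fun h => ?_⟩
    exact h.2 k (by rw [length_pre]; exact le_max_right _ _) (hm _ (le_max_left _ _))
  choose m hm using hm
  obtain ⟨F, hF, h⟩ := hx ((Finset.range n).powerset.sup m)
  exact hm F (hBd F _ _ (pre_isPrefix x (Finset.le_sup hF)) h)

theorem compStmt (hEr : ErStmt) : CompStmt := by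
  classical
  have hp : ∀ (n : ℕ) (z : Set Node × (ℕ → ℕ)), ∃ N, Phi z.1 z.2 n N ∨ ¬ ∃ N', Phi z.1 z.2 n N' := by
    intro n z
    by_cases h : ∃ N', Phi z.1 z.2 n N'
    · obtain ⟨N, hN⟩ := h
      exact ⟨N, Or.inl hN⟩
    · exact ⟨0, Or.inr h⟩
  refine ⟨fun K c n => Nat.find (hp n (K, c)), ?_, ?_⟩
  · rw [measurable_pi_iff]
    intro n
    refine measurable_find (p := fun (z : Set Node × (ℕ → ℕ)) N =>
      Phi z.1 z.2 n N ∨ ¬ ∃ N', Phi z.1 z.2 n N') (hp n) ?_
    intro N
    refine (measurableSet_Phi n N).union (MeasurableSet.compl ?_)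
    change MeasurableSet {z : Set Node × (ℕ → ℕ) | ∃ N', Phi z.1 z.2 n N'}
    rw [show {z : Set Node × (ℕ → ℕ) | ∃ N', Phi z.1 z.2 n N'} =
      ⋃ N', {z | Phi z.1 z.2 n N'} by ext z; simp]
    exact MeasurableSet.iUnion fun N' => measurableSet_Phi n N'
  · intro K c hK n x hx x' hx'
    change ∀ i, n ≤ i → i < Nat.find (hp n (K, c)) → x' i = x i at hx'
    change ∃ k ≤ Nat.find (hp n (K, c)), eR x' ∈ iv (c (Nat.pair n k))
    have hex := exists_Phi hEr K c hK n
    have hspec : Phi K c n (Nat.find (hp n (K, c))) := by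
      rcases Nat.find_spec (hp n (K, c)) with h | h
      · exact h
      · exact absurd hex h
    generalize Nat.find (hp n (K, c)) = N at hspec hx' ⊢
    obtain ⟨hnN, hspec⟩ := hspec
    obtain ⟨k, hk, hk'⟩ := hspec (pre x N) (length_pre x N) (fun m hm => by
      rw [take_pre x hm]; exact hx m) ((Finset.range n).filter fun i => x' i ≠ x i)
      (by simp)
    refine ⟨k, hk, ?_⟩
    have h1 := hk' (chg x' ((Finset.range n).filter fun i => x' i ≠ x i)) (by
      unfold On
      rw [length_pre, pre_eq_pre_iff]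
      intro i hi
      unfold chg
      by_cases hin : i < n
      · by_cases hd : x' i = x i
        · simp [hd]
        · simp only [Finset.mem_filter, Finset.mem_range, hin, ne_eq, hd, not_false_eq_true,
            and_self, decide_true]
          cases h1 : x' i <;> cases h2 : x i <;> simp_all
      · simp [hin, hx' i (not_lt.1 hin) hi])
    have h2 : chg (chg x' ((Finset.range n).filter fun i => x' i ≠ x i))
        ((Finset.range n).filter fun i => x' i ≠ x i) = x' := by
      funext i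
      unfold chg
      cases x' i <;> cases (decide (i ∈ (Finset.range n).filter fun i => x' i ≠ x i)) <;> rfl
    rwa [h2] at h1

end Pool.Agent.MG.H8
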