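import Pool.Agent.Helper56_MG.Stmts
import Pool.Agent.Helper56_MG.Base1

/-!
# FTS: trees of binary systems
-/

open Set

namespace Pool.Agent.MG.H8

/-- Three possibilities for two lists of bits. -/
theorem list_cases : ∀ σ τ : List Bool, σ <+: τ ∨ τ <+: σ ∨
    ∃ ρ a b, a ≠ b ∧ ρ ++ [a] <+: σ ∧ ρ ++ [b] <+: τ
  | [], τ => Or.inl List.nil_prefix
  | a :: σ, [] => Or.inr (Or.inl List.nil_prefix)
  | a :: σ, b :: τ => by
    by_cases hab : a = b
    · subst hab
      rcases list_cases σ τ with h | h | ⟨ρ, c, d, hcd, h1, h2⟩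
      · exact Or.inl ((List.prefix_cons_inj a).2 h)
      · exact Or.inr (Or.inl ((List.prefix_cons_inj a).2 h))
      · exact Or.inr (Or.inr ⟨a :: ρ, c, d, hcd, by simpa using h1, by simpa using h2⟩)
    · exact Or.inr (Or.inr ⟨[], a, b, hab, by simp, by simp⟩)

section
variable {s : List Bool → Node} (hs : ∀ σ b, s σ ++ [b] <+: s (σ ++ [b]))
include hs

theorem s_step (σ : List Bool) (b : Bool) : s σ <+: s (σ ++ [b]) :=
  (List.prefix_append _ _).trans (hs σ b)

theorem s_mono {σ τ : List Bool} (h : σ <+: τ) : s σ <+: s τ := by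
  obtain ⟨ρ, rfl⟩ := h
  induction ρ using List.reverseRecOn with
  | nil => simp
  | append_singleton l a ih =>
    rw [← List.append_assoc]
    exact ih.trans (s_step hs _ _)

theorem s_lt {σ τ : List Bool} (h : σ <+: τ) (hl : σ.length < τ.length) :
    (s σ).length < (s τ).length := by
  obtain ⟨ρ, rfl⟩ := h
  cases ρ with
  | nil => simp at hl
  | cons a l =>
    have h1 : s (σ ++ [a]) <+: s (σ ++ a :: l) := s_mono hs ⟨l, by simp⟩
    have h2 := (hs σ a).length_le
    have h3 := h1.length_le
    simp only [List.length_append, List.length_singleton] at h2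
    omega

/-- Comparable nodes have comparable indices. -/
theorem comparable_of {σ τ : List Bool} (h : s σ <+: s τ) : σ <+: τ ∨ τ <+: σ := by
  rcases list_cases σ τ with h1 | h1 | ⟨ρ, a, b, hab, h1, h2⟩
  · exact Or.inl h1
  · exact Or.inr h1
  · exfalso
    have h3 : s ρ ++ [a] <+: s τ := ((hs ρ a).trans (s_mono hs h1)).trans h
    have h4 : s ρ ++ [b] <+: s τ := (hs ρ b).trans (s_mono hs h2)
    have h5 := List.prefix_of_prefix_length_le h3 h4 (by simp)
    have h6 := h5.eq_of_length (by simp)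
    have h7 := List.append_cancel_left h6
    simp at h7
    exact hab h7

theorem prefix_of {σ τ : List Bool} (h : s σ <+: s τ) : σ <+: τ := by
  rcases comparable_of hs h with h1 | h1
  · exact h1
  · by_cases hl : τ.length < σ.length
    · have := s_lt hs h1 hl
      have := h.length_le
      omega
    · rw [h1.eq_of_length (le_antisymm h1.length_le (not_lt.1 hl))]

theorem good_ftS : Good false (ftS s) := by
  refine ⟨⟨[], List.nil_prefix⟩, ?_, ?_⟩
  · rintro t a ⟨σ, h⟩
    exact ⟨σ, (List.prefix_append _ _).trans h⟩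
  · rintro t ⟨σ, h⟩
    exact ⟨s σ, ⟨σ, List.prefix_rfl⟩, h, ⟨σ ++ [false], hs σ false⟩, ⟨σ ++ [true], hs σ true⟩⟩

/-- If the branch `x` runs through `s σ` then it runs through one of the successors. -/
theorem on_step {x : R} (hx : x ∈ bS (ftS s)) {σ : List Bool} (h : On (s σ) x) :
    ∃ b, On (s (σ ++ [b])) x := by
  obtain ⟨τ, hτ⟩ := hx ((s (σ ++ [false])).length + (s (σ ++ [true])).length)
  have h1 : s σ <+: pre x ((s (σ ++ [false])).length + (s (σ ++ [true])).length) := by
    refine (on_iff_prefix ?_).1 h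
    have := (s_step hs σ false).length_le
    omega
  have h2 : σ <+: τ := prefix_of hs (h1.trans hτ)
  have h3 := hτ.length_le
  rw [length_pre] at h3
  obtain ⟨ρ, rfl⟩ := h2
  cases ρ with
  | nil =>
    exfalso
    have h4 := (hs σ false).length_le
    have h5 := (hs σ true).length_le
    simp only [List.length_append, List.length_singleton, List.append_nil] at h3 h4 h5
    omega
  | cons b l =>
    refine ⟨b, ?_⟩
    have h4 : s (σ ++ [b]) <+: s (σ ++ b :: l) := s_mono hs ⟨l, by simp⟩
    have h5 : (s (σ ++ [b])).length ≤ (s (σ ++ [false])).length + (s (σ ++ [true])).length := by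
      cases b <;> omega
    rw [on_iff_prefix h5]
    exact List.prefix_of_prefix_length_le h4 hτ (by rw [length_pre]; exact h5)

theorem on_nil {x : R} (hx : x ∈ bS (ftS s)) : On (s []) x := by
  obtain ⟨τ, hτ⟩ := hx (s []).length
  rw [on_iff_prefix le_rfl]
  exact List.prefix_of_prefix_length_le (s_mono hs List.nil_prefix) hτ (by rw [length_pre])

theorem branch_ftS {x : R} (hx : x ∈ bS (ftS s)) : ∃ g : ℕ → Bool, ∀ n, On (s (pre g n)) x := by
  classical
  let f : ℕ → {σ : List Bool // On (s σ) x} := fun n =>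
    Nat.rec ⟨[], on_nil hs hx⟩ (fun _ σ => ⟨σ.1 ++ [(on_step hs hx σ.2).choose],
      (on_step hs hx σ.2).choose_spec⟩) n
  have hf : ∀ n, ∃ b, (f (n + 1)).1 = (f n).1 ++ [b] := fun n => ⟨_, rfl⟩
  choose g hg using hf
  refine ⟨g, fun n => ?_⟩
  have h : pre g n = (f n).1 := by
    induction n with
    | zero => rfl
    | succ n ih => rw [pre_succ, hg, ih]
  rw [h]
  exact (f n).2

end

/-! ### The coding -/

theorem cd_nil : cd [] = [] := rfl

theorem cd_append (σ τ : List ℕ) : cd (σ ++ τ) = cd σ ++ cd τ := by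
  simp [cd]

theorem cd_singleton (k : ℕ) : cd [k] = List.replicate k false ++ [true] := by
  simp [cd]

theorem cd_cons (k : ℕ) (σ : List ℕ) :
    cd (k :: σ) = List.replicate k false ++ (true :: cd σ) := by
  simp [cd]

theorem rep_prefix : ∀ (k k' : ℕ) (u v : List Bool),
    List.replicate k false ++ (true :: u) <+: List.replicate k' false ++ (true :: v) →
      k = k' ∧ u <+: v
  | 0, 0, u, v, h => by simpa using h
  | 0, k' + 1, u, v, h => by
    simp [List.replicate_succ] at h
  | k + 1, 0, u, v, h => by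
    simp [List.replicate_succ] at h
  | k + 1, k' + 1, u, v, h => by
    simp only [List.replicate_succ, List.cons_append, List.prefix_cons_inj] at h
    obtain ⟨h1, h2⟩ := rep_prefix k k' u v h
    exact ⟨by rw [h1], h2⟩

theorem cd_prefix : ∀ (σ τ : List ℕ) (m : ℕ), cd σ <+: cd τ ++ List.replicate m false → σ <+: τ
  | [], τ, m, _ => List.nil_prefix
  | k :: σ, [], m, h => by
    exfalso
    have h1 : true ∈ cd [] ++ List.replicate m false := by
      apply h.subset
      rw [cd_cons]
      simp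
    simp [cd_nil] at h1
  | k :: σ, k' :: τ, m, h => by
    rw [cd_cons, cd_cons, List.append_assoc, List.cons_append] at h
    obtain ⟨h1, h2⟩ := rep_prefix _ _ _ _ h
    rw [h1, List.prefix_cons_inj]
    exact cd_prefix σ τ m h2

theorem Big.mem_of_prefix {D : Set (List ℕ)} (hD : Big D) {σ τ : List ℕ} (h : σ <+: τ)
    (hτ : τ ∈ D) : σ ∈ D := by
  obtain ⟨ρ, rfl⟩ := h
  induction ρ using List.reverseRecOn with
  | nil => simpa using hτ
  | append_singleton l a ih =>
    rw [← List.append_assoc] at hτ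
    exact ih (hD.down _ _ hτ)

theorem cd_step (σ : List ℕ) (k : ℕ) :
    (cd σ ++ List.replicate k false) ++ [true] = cd (σ ++ [k]) ++ List.replicate 0 false := by
  rw [cd_append, cd_singleton]
  simp

theorem cd_step' (σ : List ℕ) (k : ℕ) :
    (cd σ ++ List.replicate k false) ++ [false] = cd σ ++ List.replicate (k + 1) false := by
  rw [List.append_assoc, ← List.replicate_succ']

section
variable {s : List Bool → Node} (hs : ∀ σ b, s σ ++ [b] <+: s (σ ++ [b]))
include hs

theorem good_ftSD {D : Set (List ℕ)} (hD : Big D) : Good false (ftSD s D) := by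
  refine ⟨⟨[], hD.nil, 0, List.nil_prefix⟩, ?_, ?_⟩
  · rintro t a ⟨σ, hσ, n, h⟩
    exact ⟨σ, hσ, n, (List.prefix_append _ _).trans h⟩
  · rintro t ⟨σ, hσ, n, h⟩
    obtain ⟨k, hk, hk'⟩ := hD.inf σ hσ n
    refine ⟨s (cd σ ++ List.replicate k false), ⟨σ, hσ, k, List.prefix_rfl⟩, ?_, ?_, ?_⟩
    · refine h.trans (s_mono hs ?_)
      refine ⟨List.replicate (k - n) false, ?_⟩
      rw [List.append_assoc, List.replicate_append_replicate]
      congr 2
      omega
    · refine ⟨σ, hσ, k + 1, ?_⟩
      rw [← cd_step']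
      exact hs _ _
    · refine ⟨σ ++ [k], hk', 0, ?_⟩
      rw [← cd_step]
      exact hs _ _

theorem branch_ftSD {D : Set (List ℕ)} (hD : Big D) {x : R} (hx : x ∈ bS (ftSD s D)) :
    (∃ σ ∈ D, ∀ n, On (s (cd σ ++ List.replicate n false)) x) ∨
      (∃ g : ℕ → ℕ, ∀ n, ini g n ∈ D ∧ On (s (cd (ini g n))) x) := by
  classical
  have hx' : x ∈ bS (ftS s) := by
    intro n
    obtain ⟨σ, _, m, h⟩ := hx n
    exact ⟨_, h⟩
  by_contra hcon
  push Not at hcon
  obtain ⟨h1, h2⟩ := hcon
  -- the step
  have hstep : ∀ σ : List ℕ, σ ∈ D → On (s (cd σ)) x →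
      ∃ k, σ ++ [k] ∈ D ∧ On (s (cd (σ ++ [k]))) x := by
    intro σ hσ ho
    obtain ⟨n0, hn0⟩ := h1 σ hσ
    have hex : ∃ n, ¬ On (s (cd σ ++ List.replicate n false)) x := ⟨n0, hn0⟩
    have hfind := Nat.find_spec hex
    have hpos : Nat.find hex ≠ 0 := by
      intro h0
      rw [h0] at hfind
      apply hfind
      simpa using ho
    obtain ⟨k, hk⟩ := Nat.exists_eq_succ_of_ne_zero hpos
    have hk1 : On (s (cd σ ++ List.replicate k false)) x := by
      by_contra hno
      have := Nat.find_min hex (m := k) (by omega)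
      exact this hno
    obtain ⟨b, hb⟩ := on_step hs hx' hk1
    cases b with
    | false =>
      exfalso
      apply hfind
      rw [hk, Nat.succ_eq_add_one, ← cd_step']
      exact hb
    | true =>
      rw [cd_step, List.replicate_zero, List.append_nil] at hb
      refine ⟨k, ?_, hb⟩
      obtain ⟨τ, hτ, m, hm⟩ := hx (s (cd (σ ++ [k]))).length
      have h3 := (on_iff_prefix le_rfl).1 hb
      have h4 := cd_prefix _ _ _ (prefix_of hs (h3.trans hm))
      exact Big.mem_of_prefix hD h4 hτ
  let f : ℕ → {σ : List ℕ // σ ∈ D ∧ On (s (cd σ)) x} := fun n =>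
    Nat.rec ⟨[], hD.nil, on_nil hs hx'⟩ (fun _ σ =>
      ⟨σ.1 ++ [(hstep σ.1 σ.2.1 σ.2.2).choose], (hstep σ.1 σ.2.1 σ.2.2).choose_spec⟩) n
  have hf : ∀ n, ∃ b, (f (n + 1)).1 = (f n).1 ++ [b] := fun n => ⟨_, rfl⟩
  choose g hg using hf
  obtain ⟨n, hn⟩ := h2 g
  have h : ini g n = (f n).1 := by
    clear hn
    induction n with
    | zero => rfl
    | succ n ih =>
      have : ini g (n + 1) = ini g n ++ [g n] := by simp [ini, List.range_succ]
      rw [this, hg, ih]
  rw [h] at hn
  exact hn (f n).2.1 (f n).2.2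

end

theorem ftsStmt : FtSStmt := by
  constructor
  · intro s hs
    refine ⟨good_ftS hs, fun x hx => branch_ftS hs hx, fun D hD => ⟨good_ftSD hs hD, ?_,
      fun x hx => branch_ftSD hs hD hx⟩⟩
    rintro t ⟨σ, _, n, h⟩
    exact ⟨_, h⟩
  · intro Ω _ s D hs hD
    constructor
    · rw [measurable_node_iff]
      intro t
      have h : {w | t ∈ ftS (fun σ => s σ w)} = ⋃ σ, {w | s σ w ∈ {u | t <+: u}} := by
        ext w
        simp [ftS]
      rw [h]
      exact MeasurableSet.iUnion fun σ => (hs σ).preimage _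
    · rw [measurable_node_iff]
      intro t
      have h : {w | t ∈ ftSD (fun σ => s σ w) (D w)} = ⋃ σ : List ℕ, ⋃ n : ℕ,
          ({w | σ ∈ D w} ∩ {w | s (cd σ ++ List.replicate n false) w ∈ {u | t <+: u}}) := by
        ext w
        simp [ftSD]
      rw [h]
      exact MeasurableSet.iUnion fun σ => MeasurableSet.iUnion fun n =>
        (hD σ).inter ((hs _).preimage _)

end Pool.Agent.MG.H8
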