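import Pool.Agent.Helper56_MG.Stmts2
import Pool.Agent.Helper56_MG.Base1
import Pool.Agent.Helper92_FL.R8

/-!
# JBND: countable sets of coordinates are bounded, closure points
-/

open Set

namespace Pool.Agent.MG.H8

open Pool.Agent.FL (Ix)

/-- The index of a coordinate. -/
noncomputable def jx : JJ → Ix
  | .s k => k
  | .m k => k
  | .t _ => ixb

theorem lt_s_of_jx {i : JJ} (hi : i < te) {k : Ix} (h : jx i < k) : i < JJ.s k := by
  cases i with
  | s l => exact JJ.s_lt_s.2 h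
  | m l => exact JJ.m_lt_s.2 h
  | t n => exact absurd (JJ.t_lt_t.1 hi) (Nat.not_lt_zero _)

theorem jx_lt_of_lt {i : JJ} {k : Ix} (h : i < JJ.s k) : jx i < k := by
  cases i with
  | s l => exact JJ.s_lt_s.1 h
  | m l => exact JJ.m_lt_s.1 h
  | t n => exact absurd h JJ.not_t_lt_s

theorem exists_bound (C : Set JJ) (hC : C.Countable) (hCt : C ⊆ Set.Iio te) :
    ∃ k : Ix, C ⊆ Set.Iio (JJ.s k) := by
  have hc : Cardinal.mk C ≤ Cardinal.continuum := by
    have := hC.to_subtype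
    exact Cardinal.mk_le_aleph0.trans Cardinal.aleph0_le_continuum
  obtain ⟨b, hb⟩ := Pool.Agent.FL.H92.bdd_XX _ Cardinal.aleph0_le_continuum C hc
    (fun i => jx i.1)
  exact ⟨b, fun i hi => lt_s_of_jx (hCt hi) (hb ⟨i, hi⟩)⟩

theorem exists_countable_dep_seq {f : PJ → ℕ → ℕ} (hf : Measurable f) (J : Set JJ)
    (hJ : DepOn J f) : ∃ C ⊆ J, C.Countable ∧ DepOn C f := by
  have h : ∀ n m : ℕ, ∃ C ⊆ J, C.Countable ∧ DepOn C (fun y => y ∈ {y | f y n = m}) := by
    intro n m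
    refine exists_countable_dep_set ?_ J ?_
    · exact ((measurable_pi_apply n).comp hf) (measurableSet_singleton m)
    · intro y y' hyy
      show (f y n = m) = (f y' n = m)
      rw [hJ y y' hyy]
  choose C hCJ hCc hC using h
  refine ⟨⋃ n, ⋃ m, C n m, Set.iUnion_subset fun n => Set.iUnion_subset fun m => hCJ n m,
    Set.countable_iUnion fun n => Set.countable_iUnion fun m => hCc n m, ?_⟩
  intro y y' hyy
  funext n
  have h1 : (f y n = f y' n) = (f y' n = f y' n) := by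
    refine hC n (f y' n) y y' fun i hi => hyy i ?_
    exact Set.mem_iUnion.2 ⟨n, Set.mem_iUnion.2 ⟨f y' n, hi⟩⟩
  rw [h1]

theorem bndStmt : BndStmt := by
  refine ⟨exists_bound, ?_, ?_, ?_, ?_, ?_⟩
  · intro r hr
    obtain ⟨k, hk⟩ := exists_bound r.S r.scount hr
    exact ⟨k, hk⟩
  · rintro f ⟨hm, hd⟩
    obtain ⟨C, hCJ, hCc, hC⟩ := exists_countable_dep_node hm (Set.Iio te) (dep_iff_depOn.1 hd)
    obtain ⟨k, hk⟩ := exists_bound C hCc hCJ
    exact ⟨k, fun y y' h => hC y y' fun i hi => h i (hk hi)⟩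
  · rintro f ⟨hm, hd⟩
    obtain ⟨C, hCJ, hCc, hC⟩ := exists_countable_dep_seq hm (Set.Iio te) (dep_iff_depOn.1 hd)
    obtain ⟨k, hk⟩ := exists_bound C hCc hCJ
    exact ⟨k, fun y y' h => hC y y' fun i hi => h i (hk hi)⟩
  · intro ι hι h
    exact Pool.Agent.FL.H92.bdd_XX _ Cardinal.aleph0_le_continuum ι hι h
  · intro g β0
    obtain ⟨α, h1, h2, h3⟩ := Pool.Agent.FL.H92.closure_point g β0
    have hlow : ∀ C : Set JJ, C ⊆ Set.Iio (JJ.s α) → C.Countable →
        ∃ β < α, C ⊆ Set.Iio (JJ.s β) := by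
      intro C hC hCc
      obtain ⟨β, hβ, hβC⟩ := h3 (jx '' C) (by
        rintro _ ⟨i, hi, rfl⟩
        exact jx_lt_of_lt (hC hi)) (hCc.image _)
      refine ⟨β, hβ, fun i hi => lt_s_of_jx ((hC hi).trans JJ.s_lt_t) ?_⟩
      exact hβC ⟨i, hi, rfl⟩
    refine ⟨α, h1, h2, ?_, ?_⟩
    · intro r hr
      obtain ⟨β, hβ, hC⟩ := hlow r.S hr r.scount
      exact ⟨β, hβ, hC⟩
    · intro f hm hd
      obtain ⟨C, hCJ, hCc, hC⟩ := exists_countable_dep_seq hm (Set.Iio (JJ.s α))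
        (dep_iff_depOn.1 hd)
      obtain ⟨β, hβ, hβC⟩ := hlow C hCJ hCc
      exact ⟨β, hβ, fun y y' h => hC y y' fun i hi => h i (hβC hi)⟩

end Pool.Agent.MG.H8
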