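import Pool.Agent.Helper56_MG.Stmts2
import Pool.Agent.Helper56_MG.Base3
import Pool.Agent.Helper14_MG.Common

/-!
# SBD: the Sacks coordinates are bounding
-/

open Set

namespace Pool.Agent.MG.H8

section
variable {I : Type} [Idx I]

/-- Good hulls which meet given dense sets. -/
theorem hull_gen (hProp : PropStmt I) (hHull : HullStmt.{0} I) (hGd : GdStmt I)
    {α β : I} (hαβ : α < β) (DD : ℕ → Set (Cond I))
    (hDD : ∀ n e, VB β e → ∃ d, d ≤ e ∧ VB β d ∧ d ∈ DD n) {p : Cond I} (hp : VB β p) :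
    ∃ (p' : Cond I) (N : Set (Cond I)) (Z : Set I) (𝒟 : Set (Set (Cond I))),
      p' ≤ p ∧ p' ∈ N ∧ α ∈ p'.S ∧ α ∈ Z ∧ GoodN I β N Z ∧ GoodD I β N Z 𝒟 ∧
        ∀ m, DD m ∈ 𝒟 := by
  set p' : Cond I := p.setT α (p.T α) (p.meas α) (p.dep α) with hp'
  have hg : ∀ y ∈ (p.restr α).body, Good (ty α) (p.T α y) ∧ p.T α y ⊆ p.T α y :=
    fun y _ => ⟨p.good α y, Set.Subset.rfl⟩
  have hVp' : VB β p' := VB.setT hp hαβ _ _ _ hg (fun ht => hp.lv ht)
  have hle : p' ≤ p := Cond.setT_le p _ _ _ hg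
  have hαS : α ∈ p'.S := by
    rw [hp', Cond.setT_S]
    exact Set.mem_insert _ _
  obtain ⟨N, Z, Y, B, hN, -, h0, -, -, -, hRu⟩ := hHull β (fun ρ _ => ⟨(hProp ρ).1, (hProp ρ).2.1⟩)
    PEmpty {Sum.inl p'} (Set.countable_singleton _) (by
      intro e he
      rw [Set.mem_singleton_iff, Sum.inl.injEq] at he
      rw [he]; exact hVp') Set.univ Set.infinite_univ
    (fun n l O _ => ∀ e, l = [Sum.inl e] → ∃ d, Sum.inl d ∈ O ∧ d ≤ e ∧ d ∈ DD n) (by
      intro n l hl C' _ hC'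
      by_cases h : ∃ e, l = [Sum.inl e]
      · obtain ⟨e, rfl⟩ := h
        obtain ⟨d, hd1, hd2, hd3⟩ := hDD n e (hl e (by simp))
        refine ⟨{Sum.inl d}, Set.countable_singleton _, ?_, C', Set.Subset.rfl, hC', ?_⟩
        · intro e' he'
          rw [Set.mem_singleton_iff, Sum.inl.injEq] at he'
          rw [he']; exact hd2
        · intro e' he'
          simp only [List.cons.injEq, Sum.inl.injEq, and_true] at he'
          rw [← he']
          exact ⟨d, rfl, hd1, hd3⟩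
      · refine ⟨∅, Set.countable_empty, ?_, C', Set.Subset.rfl, hC', ?_⟩
        · intro e he
          exact absurd he (Set.notMem_empty _)
        · intro e he
          exact absurd ⟨e, he⟩ h)
  have hpN : p' ∈ N := h0 p' rfl
  have hdense : ∀ n, ∀ e ∈ N, ∃ d ∈ N, d ≤ e ∧ d ∈ DD n := by
    intro n e he
    obtain ⟨O, hO, -, C', -, -, -, hR⟩ := hRu n [Sum.inl e] (by
      intro e' he'
      simp only [List.mem_singleton, Sum.inl.injEq] at he'
      rw [he']; exact he) (by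
      intro x _
      exact x.elim)
    obtain ⟨d, hd1, hd2, hd3⟩ := hR e rfl
    exact ⟨d, hO d hd1, hd2, hd3⟩
  obtain ⟨𝒟, hD0, hD⟩ := hGd β N Z hN (Set.range DD) (Set.countable_range _) (by
    rintro D ⟨n, rfl⟩ e he
    exact hdense n e he)
  exact ⟨p', N, Z, 𝒟, hle, hpN, hαS, hN.supp p' hpN hαS, hN, hD, fun m => hD0 ⟨m, rfl⟩⟩

/-- Least strict upper bound of the part of `Z` below `i`. -/
theorem exists_ssup (Z : Set I) (i : I) : ∃ ρ, ρ ≤ i ∧ (∀ j ∈ Z, j < i → j < ρ) ∧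
    ∀ ε, ε < ρ → ∃ j ∈ Z, j < i ∧ ε ≤ j := by
  have hne : ({ρ | ∀ j ∈ Z, j < i → j < ρ} : Set I).Nonempty := ⟨i, fun _ _ h => h⟩
  refine ⟨(wellFounded_lt (α := I)).min _ hne, ?_, (wellFounded_lt (α := I)).min_mem _ hne, ?_⟩
  · exact not_lt.1 ((wellFounded_lt (α := I)).not_lt_min _ (x := i) (fun _ _ h => h))
  · intro ε hε
    by_contra hcon
    push Not at hcon
    exact (wellFounded_lt (α := I)).not_lt_min {ρ | ∀ j ∈ Z, j < i → j < ρ} (x := ε) hcon hε

theorem sbd_gen (hProp : PropStmt I) (hHull : HullStmt.{0} I) (hGd : GdStmt I)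
    (hHg : HgStmt I) (hClaim : ClaimStmt I) (hSfus : SfusStmt I) (hSfree : SfreeStmt I)
    (hFts : FtSStmt) (hSys : SysStmt I) (hCst2 : Cst2Stmt I) :
    ∀ (β i : I), ty i = false → i < β → ∀ p, VB β p → ∀ h : Pt I → ℕ → ℕ, Measurable h →
      Dep (nx i) h → ∃ q, q ≤ p ∧ VB β q ∧ (∀ j, nx i ≤ j → q.T j = p.T j) ∧
        ∃ h' : Pt I → ℕ → ℕ, Measurable h' ∧ Dep i h' ∧ ∀ y ∈ q.body, ∀ n, h y n ≤ h' y n := by
  classical
  intro β i hti hiβ p hp h hm hd
  have hnx : nx i ≤ β := nx_le _ _ hiβ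
  -- the hull
  let DD : ℕ → Set (Cond I) := fun n => {d | ∃ m, ∀ y ∈ d.body, h y n = m}
  have hDD : ∀ n e, VB (nx i) e → ∃ d, d ≤ e ∧ VB (nx i) d ∧ d ∈ DD n := by
    intro n e he
    obtain ⟨q, h1, h2, x, hx⟩ := (hCst2 (nx i) (hProp (nx i)).1 (hProp (nx i)).2.1).1 e he ℕ
      (fun y => h y n) (measC_of_countable fun x =>
        ((measurable_pi_apply n).comp hm) (measurableSet_singleton x))
      (fun y y' hyy => by
        show h y n = h y' n
        rw [hd y y' hyy])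
    exact ⟨q, h1, h2, x, hx⟩
  have hpr : VB (nx i) (p.restr (nx i)) := hp.restr (nx i)
  obtain ⟨e0, N, Z, 𝒟, he0p, he0N, hiS, hiZ, hN, hD, hDDm⟩ :=
    hull_gen hProp hHull hGd (lt_nx i) DD hDD hpr
  obtain ⟨r, hr, hrG⟩ := Pool.Agent.MG.H14.gen_cond hProp hClaim hHg (lt_nx i) hN hD he0N
  obtain ⟨Dq, hDq⟩ := hD.cnt.exists_eq_range ⟨_, hDDm 0⟩
  obtain ⟨e, s, heM, hsM, hES⟩ := hSfus (nx i) N Z 𝒟 hN hD i hiZ hti e0 he0N Dq
    (fun n => by rw [hDq]; exact ⟨n, rfl⟩)
  obtain ⟨ρ, hρi, hρ1, hρ2⟩ := exists_ssup Z i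
  have hFr := hSfree (nx i) N Z 𝒟 hN hD i hiZ hti e0 he0N Dq hDq.symm e s hES ρ hρi hρ1 hρ2
    (hProp ρ).1
  -- the tree
  obtain ⟨-, hgen, -, -⟩ := hHg (nx i) N Z 𝒟 hN hD
  obtain ⟨hgenM, hgenD⟩ := hgen i (lt_nx i)
  let T' : Pt I → Set Node := fun y =>
    if y ∈ (e0.restr i).body ∧ Gen I N 𝒟 i y then ftS (fun σ => s σ y) else ∅
  have hT'1 : ∀ y ∈ r.body, T' y = ftS (fun σ => s σ y) := fun y hy => if_pos (hrG y hy)
  have hT'm : Measurable T' := by
    refine Measurable.ite ((Cond.measurableSet_body _).inter hgenM) ?_ measurable_const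
    exact (hFts.2 (Pt I) s (fun _ => ∅) (fun σ => (hsM σ).1) (fun σ => by simp)).1
  have hT'd : Dep ρ T' := by
    intro y y' hyy
    have hZ : ∀ j ∈ Z ∩ Set.Iio i, y j = y' j := fun j hj => hyy j (hρ1 j hj.1 hj.2)
    have h1 : (y ∈ (e0.restr i).body) = (y' ∈ (e0.restr i).body) :=
      Cond.depOn_restr_body (hN.supp e0 he0N) (hN.dep e0 he0N) i y y' hZ
    have h2 : Gen I N 𝒟 i y = Gen I N 𝒟 i y' := hgenD y y' hZ
    have h3 : (fun σ => s σ y) = (fun σ => s σ y') := by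
      funext σ
      exact (hsM σ).2 y y' hZ
    simp only [T', h1, h2, h3]
  have hT'F : Fr ρ (fun y => bS (T' y)) := by
    refine hFr.sub ?_
    intro y x hx
    by_cases hc : y ∈ (e0.restr i).body ∧ Gen I N 𝒟 i y
    · have h1 : T' y = ftS (fun σ => s σ y) := if_pos hc
      rw [h1] at hx
      exact ⟨hc.1, hc.2, hx⟩
    · have h1 : T' y = ∅ := if_neg hc
      rw [h1] at hx
      exact absurd (hx 0) (Set.notMem_empty _)
  have hS : ∀ y ∈ r.body, SSys I N Dq i e0 y (fun σ => e σ y) (fun σ => s σ y) :=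
    fun y hy => hES y (hrG y hy).1 (hrG y hy).2
  have hrb : ∀ y ∈ (r.restr i).body, y ∈ r.body := by
    intro y hy
    rwa [hr.below.restr_eq] at hy
  have hg : ∀ y ∈ (r.restr i).body, Good (ty i) (T' y) ∧ T' y ⊆ r.T i y := by
    intro y hy
    have hy' := hrb y hy
    rw [hT'1 y hy', hr.below.T_eq le_rfl, hti]
    exact ⟨(hFts.1 _ (hS y hy').node).1, Set.subset_univ _⟩
  have hdT : Dep i T' := hT'd.mono hρi
  have hrV : VB (nx i) r := hr.mono (lt_nx i).le
  set q1 : Cond I := r.setT i T' hT'm hdT with hq1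
  have hq1V : VB (nx i) q1 := VB.setT hrV (lt_nx i) T' hT'm hdT hg
    (fun _ => LV_of_Fr hρi hT'm hT'd hT'F (fun _ _ => rfl))
  have hq1r : q1 ≤ r := Cond.setT_le r _ _ _ hg
  -- points of `q1`
  have hpt : ∀ y ∈ q1.body, ∃ g : ℕ → Bool, ∀ n, y ∈ (e (pre g n) y).body := by
    intro y hy
    have hyr : y ∈ r.body := hq1r hy
    have hyi : y i ∈ bd (ty i) (q1.T i y) := hy i (by rw [hq1, Cond.setT_S]; exact Set.mem_insert _ _)
    have hyri : y ∈ (r.restr i).body := by rw [hr.below.restr_eq]; exact hyr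
    rw [hq1, Cond.setT_T_self r T' hT'm hdT (hg y hyri).1, hT'1 y hyr] at hyi
    obtain ⟨g, hg⟩ := (hFts.1 _ (hS y hyr).node).2.1 (y i) hyi.1
    have hbr := hSys.2 N Dq i e0 y _ _ (hS y hyr) (y i) g hg
    refine ⟨g, fun n => ?_⟩
    have hmem := (hS y hyr).mem (pre g n)
    intro j hj
    have hjn : j < nx i := (hN.vb _ hmem.1).below j hj
    rcases lt_or_ge j i with hji | hji
    · exact (Cond.mem_restr.1 hmem.2.1) j hj hji
    · have hji' : j = i := by
        refine le_antisymm ?_ hji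
        by_contra hcon
        exact absurd (nx_le _ _ (not_le.1 hcon)) (not_le.2 hjn)
      subst hji'
      refine ⟨hbr n, fun ht => ?_⟩
      rw [hti] at ht
      exact Bool.noConfusion ht
  have hanti : ∀ y ∈ r.body, ∀ σ : List Bool, e σ y ≤ e0 := by
    intro y hy σ
    induction σ using List.reverseRecOn with
    | nil => exact (hS y hy).root
    | append_singleton σ b ih => exact ((hS y hy).step σ b).trans ih
  have hq1p : q1 ≤ p.restr (nx i) := by
    intro y hy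
    obtain ⟨g, hg⟩ := hpt y hy
    exact he0p (hanti y (hq1r hy) _ (hg 0))
  have hle : q1.restr (nx i) ≤ p.restr (nx i) := by
    rw [hq1V.below.restr_eq]
    exact hq1p
  refine ⟨Cond.glue q1 p (nx i), Cond.glue_le_right hle, VB.glue hq1V hp hnx hle,
    fun j hj => Cond.glue_T_ge _ _ hj, ?_⟩
  -- the bound
  have hk : ∀ n, ∃ k, Dq k = DD n := by
    intro n
    have h1 := hDDm n
    rw [hDq] at h1
    exact h1
  choose k hk using hk
  let val : ℕ → Cond I → ℕ := fun n d => if H : ∃ m, ∀ y ∈ d.body, h y n = m then H.choose else 0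
  refine ⟨fun y n => (Finset.univ : Finset (Fin (k n + 1) → Bool)).sup'
    Finset.univ_nonempty (fun v => val n (e (List.ofFn v) y)), ?_, ?_, ?_⟩
  · rw [measurable_pi_iff]
    intro n
    have h1 : (fun y => (Finset.univ : Finset (Fin (k n + 1) → Bool)).sup'
        Finset.univ_nonempty (fun v => val n (e (List.ofFn v) y))) =
        (Finset.univ : Finset (Fin (k n + 1) → Bool)).sup'
        Finset.univ_nonempty (fun v => fun y => val n (e (List.ofFn v) y)) := by
      funext y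
      rw [Finset.sup'_apply]
    rw [h1]
    exact Finset.measurable_sup' _ fun v _ => ((heM (List.ofFn v)).1.comp (val n)).measurable
  · intro y y' hyy
    have h1 : ∀ σ, e σ y = e σ y' := fun σ => (heM σ).2 y y' fun j hj => hyy j hj.2
    simp only [h1]
  · intro y hy n
    have hy1 : y ∈ q1.body := Cond.glue_le_left hq1V.below hy
    obtain ⟨g, hg⟩ := hpt y hy1
    obtain ⟨d, hdN, hdD, hed, -⟩ := (hS y (hq1r hy1)).hit (pre g (k n)) (g (k n)) (k n)
      (by rw [length_pre])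
    rw [← pre_succ, hk n] at *
    obtain ⟨m, hm'⟩ := hdD
    have hH : ∃ m, ∀ z ∈ (e (pre g (k n + 1)) y).body, h z n = m := ⟨m, fun z hz => hm' z (hed hz)⟩
    have hval : h y n = val n (e (pre g (k n + 1)) y) := by
      have h1 : val n (e (pre g (k n + 1)) y) = hH.choose := dif_pos hH
      rw [h1]
      exact hH.choose_spec y (hg _)
    have hof : List.ofFn (fun j : Fin (k n + 1) => g j) = pre g (k n + 1) := by
      rw [pre, List.ofFn_eq_map, ← List.map_coe_finRange_eq_range, List.map_map]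
      rfl
    have h2 := Finset.le_sup' (s := (Finset.univ : Finset (Fin (k n + 1) → Bool)))
      (fun v => val n (e (List.ofFn v) y)) (Finset.mem_univ (fun j : Fin (k n + 1) => g j))
    simp only [hof] at h2
    rw [hval]
    exact h2

end

theorem sbdStmt (hProp : PropStmt JJ) (hHull : HullStmt.{0} JJ) (hGd : GdStmt JJ)
    (hHg : HgStmt JJ) (hClaim : ClaimStmt JJ) (hSfus : SfusStmt JJ) (hSfree : SfreeStmt JJ)
    (hFts : FtSStmt) (hSys : SysStmt JJ) (hCst2 : Cst2Stmt JJ) : SbdStmt :=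
  sbd_gen hProp hHull hGd hHg hClaim hSfus hSfree hFts hSys hCst2

end Pool.Agent.MG.H8
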