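import Pool.Agent.Helper56_MG.Stmts
import Pool.Agent.Helper56_MG.Base2

/-!
# SYS: branches of the trees of systems
-/

open Set

namespace Pool.Agent.MG.H8

variable {I : Type} [Idx I]

theorem ini_succ (g : ℕ → ℕ) (n : ℕ) : ini g (n + 1) = ini g n ++ [g n] := by
  simp [ini, List.range_succ]

theorem sys_mem_bS {α : I} {y : Pt I} {x : R} (E : ℕ → Cond I) (S : ℕ → Node)
    (hE : ∀ n, E (n + 1) ≤ E n) (hy : ∀ n, y ∈ ((E n).restr α).body)
    (hS : ∀ n, S n ∈ (E n).T α y) (hl : ∀ n, n ≤ (S n).length) (hx : ∀ n, On (S n) x) (n : ℕ) :
    x ∈ bS ((E n).T α y) := by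
  have hanti : Antitone E := antitone_nat_of_succ_le hE
  intro k
  have h1 : S (max n k) ∈ (E n).T α y :=
    Cond.T_subset (hanti (le_max_left n k)) (hy _) (hS _)
  refine ((E n).good α y).mem_of_isPrefix ?_ h1
  have h2 := hx (max n k)
  unfold On at h2
  rw [← h2]
  exact pre_isPrefix x ((le_max_right n k).trans (hl _))

theorem sysStmt : SysStmt I := by
  constructor
  · intro N Dq α e0 y e s m h x g hg
    have hnode : ∀ n, z1 (s (ini g n)) (m (ini g n) (g n)) <+: s (ini g (n + 1)) := by
      intro n
      rw [ini_succ]
      exact h.node _ _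
    have hl : ∀ n, n ≤ (s (ini g n)).length := by
      intro n
      induction n with
      | zero => exact Nat.zero_le _
      | succ n ih =>
        have h1 := (hnode n).length_le
        simp only [z1, List.length_append, List.length_replicate, List.length_singleton] at h1
        omega
    refine ⟨?_, ?_⟩
    · intro n
      refine ⟨(s (ini g n)).length + m (ini g n) (g n), (hl n).trans (Nat.le_add_right _ _), ?_⟩
      have h1 : On (z1 (s (ini g n)) (m (ini g n) (g n))) x := (hg (n + 1)).of_prefix (hnode n)
      unfold On at h1
      have hlen : (z1 (s (ini g n)) (m (ini g n) (g n))).length =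
          (s (ini g n)).length + m (ini g n) (g n) + 1 := by
        simp only [z1, List.length_append, List.length_replicate, List.length_singleton]
      rw [hlen, pre_succ, z1] at h1
      have h2 := List.append_inj' h1 (by simp)
      simpa using h2.2
    · intro n
      refine sys_mem_bS (fun n => e (ini g n)) (fun n => s (ini g n)) ?_ (fun n => (h.mem _).2.1)
        (fun n => h.inT _) hl hg n
      intro n
      show e (ini g (n + 1)) ≤ e (ini g n)
      rw [ini_succ]
      exact h.step _ _
  · intro N Dq α e0 y e s h x g hg n
    have hnode : ∀ n, s (pre g n) ++ [g n] <+: s (pre g (n + 1)) := by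
      intro n
      rw [pre_succ]
      exact h.node _ _
    have hl : ∀ n, n ≤ (s (pre g n)).length := by
      intro n
      induction n with
      | zero => exact Nat.zero_le _
      | succ n ih =>
        have h1 := (hnode n).length_le
        simp only [List.length_append, List.length_singleton] at h1
        omega
    refine sys_mem_bS (fun n => e (pre g n)) (fun n => s (pre g n)) ?_ (fun n => (h.mem _).2.1)
      (fun n => h.inT _) hl hg n
    intro n
    show e (pre g (n + 1)) ≤ e (pre g n)
    rw [pre_succ]
    exact h.step _ _

end Pool.Agent.MG.H8
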