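import Pool.Agent.Helper56_MG.Stmts
import Pool.Agent.Helper56_MG.Base3
import Pool.Agent.Helper8_MG.SYS
import Pool.Agent.Helper8_MG.FTS

/-!
# SFREE: the tree of a binary system is free of the maximal possible rank
-/

open Set

namespace Pool.Agent.MG.H8

variable {I : Type} [Idx I]

/-- Countable families of closed relations which compute the coordinate `ε` from the elements
of `A`. -/
def Fam (ε : I) (q : Cond I) (A : Pt I → Set R) (ρs : ℕ → I)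
    (H : ℕ → Pt I → Set (Node × Node)) : Prop :=
  (∀ k, ρs k ≤ ε ∧ Measurable (H k) ∧ Dep (ρs k) (H k) ∧ (∀ y, Fnl (H k y)) ∧
    Fr (ρs k) (fun y => pr2 (H k y))) ∧
  ∀ y ∈ q.body, ∀ x ∈ A y, ∃ k, (y ε, x) ∈ rb (H k y)

theorem sfreeStmt (hFts : FtSStmt) (hSys : SysStmt I) : SfreeStmt I := by
  classical
  intro β N Z 𝒟 hN hD α hα htα e0 he0 Dq hDq e s hsys ρ hρα hZρ hcof hBR
  rw [Fr_iff]
  intro ε hε htε p hp
  -- the coordinate `j`
  obtain ⟨j, hjZ, htj, hjα, hεj⟩ : ∃ j ∈ Z, ty j = false ∧ j < α ∧ ε ≤ j := by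
    obtain ⟨i, hiZ, hiα, hεi⟩ := hcof ε hε
    cases hti : ty i with
    | false => exact ⟨i, hiZ, hti, hiα, hεi⟩
    | true =>
      obtain ⟨j, hjZ, htj, hji⟩ := hN.blk i hiZ hti
      have hji' : j < i := by rw [← hji]; exact lt_nx j
      refine ⟨j, hjZ, htj, hji'.trans hiα, ?_⟩
      by_contra hcon
      have h1 : nx j ≤ ε := nx_le _ _ (not_le.1 hcon)
      rw [hji] at h1
      have h2 : ε = i := le_antisymm hεi h1
      rw [h2, hti] at htε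
      exact Bool.noConfusion htε
  -- the sets
  let A : Cond I → Pt I → Set R := fun d y => {x | y ∈ (d.restr α).body ∧ x ∈ bS (d.T α y)}
  have hAdep : ∀ d ∈ N, Dep ρ (A d) := by
    intro d hd y y' hyy
    have hyy' : ∀ i ∈ Z ∩ Set.Iio α, y i = y' i := fun i hi => hyy i (hZρ i hi.1 hi.2)
    have h1 : (y ∈ (d.restr α).body) = (y' ∈ (d.restr α).body) :=
      Cond.depOn_restr_body (hN.supp d hd) (hN.dep d hd) α y y' hyy'
    have h2 : d.T α y = d.T α y' := hN.dep d hd α y y' hyy'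
    show {x | _ ∧ _} = {x | _ ∧ _}
    rw [h1, h2]
  have hdense : ∀ d ∈ N, Rk d α j → ∀ q0, VB ρ q0 → ∃ q, q ≤ q0 ∧ VB ρ q ∧ ∃ ρs H,
      Fam ε q (A d) ρs H := by
    intro d hd hRk q0 hq0
    obtain ⟨ρ', T', hjρ', hρ'α, hTm, hTd, hTF, hTe⟩ := hRk
    have hsub : ∀ y, A d y ⊆ bS (T' y) := by
      rintro y x ⟨h1, h2⟩
      rw [hTe y h1] at h2
      exact h2
    have hF : Fr ρ' (A d) := hTF.sub hsub
    have hερ' : ε < ρ' := lt_of_le_of_lt hεj hjρ'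
    rcases le_total ρ' ρ with hle | hle
    · obtain ⟨q, h1, h2, -, ρs, H, h3, h4⟩ := Fr.use hle hF hερ' htε hq0
      exact ⟨q, h1, h2, ρs, H, h3, h4⟩
    · have hF' : Fr ρ (A d) := hF.lower hle (hAdep d hd)
      obtain ⟨q, h1, h2, -, ρs, H, h3, h4⟩ := Fr.use le_rfl hF' hε htε hq0
      exact ⟨q, h1, h2, ρs, H, h3, h4⟩
  -- enumeration of `N`
  obtain ⟨D0, hD0⟩ := hN.cN.exists_eq_range ⟨e0, he0⟩
  let DD : ℕ → Set (Cond I) := fun n =>
    {q | Rk (D0 n) α j → ∃ ρs H, Fam ε q (A (D0 n)) ρs H}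
  obtain ⟨q, hqp, hqV, hq⟩ := hBR p hp DD (by
    intro n q0 hq0 _
    by_cases hRk : Rk (D0 n) α j
    · obtain ⟨q, h1, h2, h3⟩ := hdense (D0 n) (by rw [hD0]; exact ⟨n, rfl⟩) hRk q0 hq0
      exact ⟨q, fun _ => h3, h2, h1⟩
    · exact ⟨q0, fun h => absurd h hRk, hq0, le_rfl⟩)
  choose E hEc hE hqE using hq
  -- index type of all the families
  have hne : ∀ n, (E n).Nonempty := by
    intro n
    obtain ⟨y, hy⟩ := q.body_nonempty
    have h1 := hqE n hy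
    simp only [Set.mem_iUnion] at h1
    obtain ⟨d, hd, -⟩ := h1
    exact ⟨d, hd⟩
  have hfam : ∀ n (d : Cond I), ∃ (ρs : ℕ → I) (H : ℕ → Pt I → Set (Node × Node)),
      (∀ k, ρs k ≤ ε ∧ Measurable (H k) ∧ Dep (ρs k) (H k) ∧ (∀ y, Fnl (H k y)) ∧
        Fr (ρs k) (fun y => pr2 (H k y))) ∧
      (d ∈ E n → Rk (D0 n) α j → ∀ y ∈ d.body, ∀ x ∈ A (D0 n) y,
        ∃ k, (y ε, x) ∈ rb (H k y)) := by
    intro n d
    by_cases h : d ∈ E n ∧ Rk (D0 n) α j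
    · obtain ⟨ρs, H, h1, h2⟩ := (hE n d h.1).1 h.2
      exact ⟨ρs, H, h1, fun _ _ => h2⟩
    · refine ⟨fun _ => bt, fun _ _ => ∅, fun k => ⟨bt_le _, measurable_const, fun _ _ _ => rfl,
        ?_, Fr_bt _⟩, fun h1 h2 => absurd ⟨h1, h2⟩ h⟩
      intro y s s' x hx
      exact absurd (hx 0) (by simp)
  choose ρs H hH1 hH2 using hfam
  have : ∀ n, Countable (E n) := fun n => (hEc n).to_subtype
  have : ∀ n, Nonempty (E n) := fun n => (hne n).to_subtype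
  obtain ⟨F, hF⟩ := exists_surjective_nat (Σ n : ℕ, (E n) × ℕ)
  refine ⟨q, hqp, hqV, fun k => ρs (F k).1 (F k).2.1 (F k).2.2,
    fun k => H (F k).1 (F k).2.1 (F k).2.2, fun k => hH1 _ _ _, ?_⟩
  rintro y hy x ⟨hy0, hyG, hx⟩
  have hS := hsys y hy0 hyG
  obtain ⟨g, hg⟩ := (hFts.1 (fun σ => s σ y) hS.node).2.1 x hx
  have hdr : {d : Cond I | Rk d α j} ∈ 𝒟 := hD.dr α hα htα j hjZ htj hjα
  rw [← hDq] at hdr
  obtain ⟨n, hn⟩ := hdr
  obtain ⟨d, hdN, hdD, hed, hde⟩ := hS.hit (pre g n) (g n) n (by simp)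
  rw [hn] at hdD
  have hRk : Rk d α j := hdD
  have hxe := (hSys.2 N Dq α e0 y (fun σ => e σ y) (fun σ => s σ y) hS) x g hg (n + 1)
  rw [pre_succ] at hxe
  have hye := (hS.mem (pre g n ++ [g n])).2.1
  have hxd : x ∈ bS (d.T α y) := bS_mono (Cond.T_subset hed hye) hxe
  have hyd : y ∈ (d.restr α).body := Cond.restr_mono hed α hye
  rw [hD0] at hdN
  obtain ⟨n', rfl⟩ := hdN
  have h1 := hqE n' hy
  simp only [Set.mem_iUnion] at h1
  obtain ⟨d', hd', hyd'⟩ := h1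
  obtain ⟨k, hk⟩ := hH2 n' d' hd' hRk y hyd' x ⟨hyd, hxd⟩
  obtain ⟨k', hk'⟩ := hF ⟨n', ⟨d', hd'⟩, k⟩
  have hz : ∀ z : (Σ n : ℕ, (E n) × ℕ), z = ⟨n', ⟨d', hd'⟩, k⟩ →
      (y ε, x) ∈ rb (H z.1 z.2.1 z.2.2 y) := by
    rintro _ rfl
    exact hk
  exact ⟨k', hz _ hk'⟩

end Pool.Agent.MG.H8
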